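import Pool.Agent.H92.BK.Tup

/-!
A set `R` of natural numbers which has positive upper Banach density in every Bohr neighbourhood of `0` is
chromatically prime intersective, for many tuples of elements at once: for every finite colouring of the primes
and every `k` there are many `k`-tuples `h_1, ..., h_k` of distinct elements of `R` such that, for one colour,
`N, N + h_1, ..., N + h_k` are primes of this colour for infinitely many `N`, the members of the pairs
`(e_0, e_1), (e_2, e_3), ...` of `{0, h_1, ..., h_k}` being neighbours in the colour class; and every other
pattern of primes of this colour on `{0, h_1, ..., h_k}` occurs infinitely often as well.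

`DenseInBohr`, `DenseTuples`, `InGap` and `Patterns` are defined in `Pool.Agent.H92.BK.Tup`.
-/

namespace Pool.Agent.Results.MP_f6c4b6_nt.BohrDense

open Pool.Agent.H92.BK

theorem result (R : Set ℕ) (hR : DenseInBohr R) {r : ℕ} (c : ℕ → Fin r) (k : ℕ) (hk : 1 ≤ k) :
    DenseTuples k {h | Function.Injective h ∧ (∀ j, 0 < h j ∧ h j ∈ R) ∧
      Patterns c (insert 0 (Finset.univ.image h))} :=
  tuples R hR c k hk

end Pool.Agent.Results.MP_f6c4b6_nt.BohrDense
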