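import Pool.Agent.H3.FC.Ideals

/-!
One set `R` of natural numbers which is intersective for `2 ^ (n + 1) - 2` colours inside every ideal,
while the primes have a colouring with `2 ^ n` colours without a difference in `R`.
-/

namespace Pool.Agent.Results.MP_f6c4b6_nt.EveryIdeal

/-- For every `n` there is a set `R` such that for every `q > 0` every colouring of the positive
integers with `2 ^ (n + 1) - 2` colours has `y < x` of one colour with `x - y` in `R` and `q ∣ x - y`,
while the primes can be coloured with `2 ^ n` colours so that no two primes of one colour differ by an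
element of `R`. -/
theorem result (n : ℕ) : ∃ R : Set ℕ,
    (∀ q : ℕ, 0 < q → ∀ c : ℕ → Fin (2 ^ (n + 1) - 2),
      ∃ x y, 0 < y ∧ y < x ∧ c x = c y ∧ x - y ∈ R ∧ q ∣ x - y) ∧
    (∃ c : ℕ → Fin (2 ^ n), ∀ p q : ℕ, p.Prime → q.Prime → q < p → c p = c q → p - q ∉ R) :=
  Pool.Agent.H3.FC.Ideals.main n

end Pool.Agent.Results.MP_f6c4b6_nt.EveryIdeal
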