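import Pool.Agent.H11.ChromCore

/-!
For every number `k` of colours and every modulus `m` there is a finite set `R` of positive
multiples of `m` which is `k`-intersective (even in the density sense on intervals), while the
primes can be coloured with two colours so that no two distinct primes of the same colour differ
by an element of `R`.
-/

namespace Pool.Agent.Results.MP_f6c4b6_nt.NoUniformTransfer

open Finset Pool.Agent.H11.ChromCore

/-- A finite set of odd primes not dividing `m` with `k * ∏ p < ∏ (p + 1)`. -/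
lemma exists_primes (k m : ℕ) (hm : 0 < m) :
    ∃ B : Finset ℕ, (∀ p ∈ B, p.Prime ∧ 2 < p ∧ ¬ p ∣ m) ∧ k * ∏ p ∈ B, p < ∏ p ∈ B, (p + 1) := by
  classical
  by_contra hcon
  push Not at hcon
  apply not_summable_one_div_on_primes
  apply summable_of_sum_le (c := (k : ℝ) + ∑ p ∈ Finset.range (2 * m + 1), (1 / (p : ℝ)))
  · intro p
    apply Set.indicator_nonneg
    intro _ _; positivity
  intro u
  rw [← Finset.sum_filter_add_sum_filter_not u (fun p => p.Prime ∧ 2 * m + 1 ≤ p)]
  apply add_le_add
  · set V := u.filter (fun p => p.Prime ∧ 2 * m + 1 ≤ p) with hV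
    have hVp : ∀ p ∈ V, p.Prime ∧ 2 * m + 1 ≤ p := by
      intro p hp
      rw [hV, Finset.mem_filter] at hp
      exact hp.2
    have h0 : ∑ p ∈ V, Set.indicator {p : ℕ | p.Prime} (fun n : ℕ => (1 : ℝ) / n) p =
        ∑ p ∈ V, 1 / (p : ℝ) := by
      apply Finset.sum_congr rfl
      intro p hp
      rw [Set.indicator_of_mem]
      exact (hVp p hp).1
    rw [h0]
    have hB := hcon V (by
      intro p hp
      refine ⟨(hVp p hp).1, ?_, ?_⟩
      · have := (hVp p hp).2; omega
      · intro hd
        have h1 := Nat.le_of_dvd hm hd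
        have := (hVp p hp).2
        omega)
    have hpos : (0 : ℝ) < ∏ p ∈ V, (p : ℝ) := by
      apply Finset.prod_pos
      intro p hp
      exact_mod_cast (hVp p hp).1.pos
    have h2 : ∏ p ∈ V, (1 + 1 / (p : ℝ)) ≤ k := by
      have h3 : ∏ p ∈ V, (1 + 1 / (p : ℝ)) =
          (∏ p ∈ V, ((p : ℝ) + 1)) / ∏ p ∈ V, (p : ℝ) := by
        rw [← Finset.prod_div_distrib]
        apply Finset.prod_congr rfl
        intro p hp
        have : (p : ℝ) ≠ 0 := by exact_mod_cast (hVp p hp).1.ne_zero
        field_simp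
      rw [h3, div_le_iff₀ hpos]
      have hB' : ((∏ p ∈ V, (p + 1) : ℕ) : ℝ) ≤ ((k * ∏ p ∈ V, p : ℕ) : ℝ) := by
        exact_mod_cast hB
      push_cast at hB'
      exact hB'
    have h5 : ∀ s : Finset ℕ, 1 + ∑ p ∈ s, (1 / (p : ℝ)) ≤ ∏ p ∈ s, (1 + 1 / (p : ℝ)) := by
      intro s
      induction s using Finset.induction_on with
      | empty => simp
      | insert a s ha ih =>
        rw [Finset.sum_insert ha, Finset.prod_insert ha]
        have hs : 0 ≤ ∑ p ∈ s, (1 / (p : ℝ)) := Finset.sum_nonneg (fun _ _ => by positivity)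
        have ha' : 0 ≤ (1 / (a : ℝ)) := by positivity
        nlinarith [mul_le_mul_of_nonneg_left ih (by linarith : 0 ≤ 1 + (1 / (a : ℝ))),
          mul_nonneg ha' hs]
    linarith [h5 V]
  · calc ∑ p ∈ u.filter (fun p => ¬ (p.Prime ∧ 2 * m + 1 ≤ p)),
          Set.indicator {p : ℕ | p.Prime} (fun n : ℕ => (1 : ℝ) / n) p
        ≤ ∑ p ∈ (u.filter (fun p => ¬ (p.Prime ∧ 2 * m + 1 ≤ p))).filter
            (fun p => p ∈ Finset.range (2 * m + 1)), (1 / (p : ℝ)) := by
          rw [Finset.sum_filter (fun p => p ∈ Finset.range (2 * m + 1))]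
          apply Finset.sum_le_sum
          intro p hp
          rw [Finset.mem_filter] at hp
          by_cases hpp : p.Prime
          · have hlt : p ∈ Finset.range (2 * m + 1) := by
              rw [Finset.mem_range]
              by_contra hge
              exact hp.2 ⟨hpp, by omega⟩
            rw [if_pos hlt, Set.indicator_of_mem]
            exact hpp
          · rw [Set.indicator_of_notMem (by exact hpp)]
            split_ifs <;> positivity
      _ ≤ _ := by
          apply Finset.sum_le_sum_of_subset_of_nonneg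
          · intro p hp
            rw [Finset.mem_filter] at hp
            exact hp.2
          · intro p _ _; positivity

section

variable (B : Finset ℕ)

/-- residues of a natural number modulo the members of `B` -/
def res (x : ℕ) : ∀ p : {p // p ∈ B}, ZMod (p : ℕ) := fun p => (x : ZMod (p : ℕ))

/-- connection set of the integer graph -/
noncomputable def R0 : Finset ℕ := by
  classical
  exact (Finset.range (∏ p ∈ B, p)).filter
    (fun t => 0 < t ∧ res B t ∈ T (fun p : {p // p ∈ B} => (p : ℕ)))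

lemma mem_R0 {t : ℕ} : t ∈ R0 B ↔ t < ∏ p ∈ B, p ∧ 0 < t ∧
    res B t ∈ T (fun p : {p // p ∈ B} => (p : ℕ)) := by
  classical
  simp [R0]

lemma neg_mem_T {ι : Type*} [Fintype ι] [DecidableEq ι] (n : ι → ℕ) {t : ∀ i, ZMod (n i)}
    (ht : t ∈ T n) : -t ∈ T n := by
  obtain ⟨h1, h2⟩ := ht
  refine ⟨?_, ?_⟩
  · intro i
    rcases h1 i with h | h | h
    · left; simp [h]
    · right; right; simp [h]
    · right; left; simp [h]
  · simpa using h2

lemma zero_notMem_T {ι : Type*} [Fintype ι] [DecidableEq ι] (n : ι → ℕ) :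
    (0 : ∀ i, ZMod (n i)) ∉ T n := by
  rintro ⟨_, h2⟩
  simp at h2

/-- two elements of a dense subset of an interval of length `∏ p` differ by an element of `R0`. -/
lemma dense_interval (k : ℕ) (hB : ∀ p ∈ B, p.Prime ∧ 2 < p)
    (hk : k * ∏ p ∈ B, p < ∏ p ∈ B, (p + 1)) (n : ℕ) (A : Finset ℕ)
    (hA : A ⊆ Finset.Ico n (n + ∏ p ∈ B, p)) (hcard : ∏ p ∈ B, p ≤ k * A.card) :
    ∃ x ∈ A, ∃ y ∈ A, y < x ∧ x - y ∈ R0 B := by
  classical
  set M := ∏ p ∈ B, p with hM
  have hMpos : 0 < M := Finset.prod_pos (fun p hp => (hB p hp).1.pos)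
  let N : {p // p ∈ B} → ℕ := fun p => (p : ℕ)
  have : ∀ i, NeZero (N i) := fun i => ⟨(hB i i.2).1.ne_zero⟩
  -- injectivity
  have hinj : ∀ x ∈ A, ∀ y ∈ A, res B x = res B y → x = y := by
    have aux : ∀ x ∈ A, ∀ y ∈ A, y ≤ x → res B x = res B y → x = y := by
      intro x hx y hy hyx hxy
      have hdvd : M ∣ x - y := by
        apply Finset.prod_dvd_of_isRelPrime
        · intro p hp q hq hpq
          exact Nat.coprime_iff_isRelPrime.1
            ((Nat.coprime_primes (hB p hp).1 (hB q hq).1).2 hpq)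
        · intro p hp
          have := congrFun hxy ⟨p, hp⟩
          simp only [res] at this
          have h2 := (ZMod.natCast_eq_natCast_iff _ _ _).1 this
          exact (Nat.modEq_iff_dvd' hyx).1 h2.symm
      have hx' := Finset.mem_Ico.1 (hA hx)
      have hy' := Finset.mem_Ico.1 (hA hy)
      have hlt : x - y < M := by omega
      have := Nat.eq_zero_of_dvd_of_lt hdvd hlt
      omega
    intro x hx y hy hxy
    rcases le_total y x with h | h
    · exact aux x hx y hy h hxy
    · exact (aux y hy x hx h hxy.symm).symm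
  by_contra hcon
  push Not at hcon
  have hind : ∀ a ∈ A.image (res B), ∀ b ∈ A.image (res B), a - b ∉ T N := by
    intro a ha b hb hab
    rw [Finset.mem_image] at ha hb
    obtain ⟨x, hx, rfl⟩ := ha
    obtain ⟨y, hy, rfl⟩ := hb
    have hx' := Finset.mem_Ico.1 (hA hx)
    have hy' := Finset.mem_Ico.1 (hA hy)
    rcases lt_trichotomy y x with h | h | h
    · apply hcon x hx y hy h
      rw [mem_R0]
      refine ⟨by omega, by omega, ?_⟩
      have : res B (x - y) = res B x - res B y := by
        funext p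
        simp only [res, Pi.sub_apply]
        rw [Nat.cast_sub h.le]
      rw [this]
      exact hab
    · subst h
      rw [sub_self] at hab
      exact zero_notMem_T N hab
    · apply hcon y hy x hx h
      rw [mem_R0]
      refine ⟨by omega, by omega, ?_⟩
      have : res B (y - x) = -(res B x - res B y) := by
        funext p
        simp only [res, Pi.sub_apply, Pi.neg_apply]
        rw [Nat.cast_sub h.le]
        ring
      rw [this]
      exact neg_mem_T N hab
  have hbound := indep_bound N (fun i => (hB i i.2).1.one_lt)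
    (fun i => (hB i i.2).1.odd_of_ne_two (by have := (hB i i.2).2; omega)) hind
  have hprod1 : ∏ i : {p // p ∈ B}, (N i) = M := by
    rw [hM, ← Finset.prod_coe_sort B]
  have hprod2 : ∏ i : {p // p ∈ B}, (N i + 1) = ∏ p ∈ B, (p + 1) := by
    rw [← Finset.prod_coe_sort B (fun p => p + 1)]
  rw [hprod1, hprod2, Finset.card_image_of_injOn (fun x hx y hy h => hinj x hx y hy h)] at hbound
  have hApos : 0 < A.card := by
    rcases Nat.eq_zero_or_pos A.card with h | h
    · rw [h] at hcard; omega
    · exact h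
  have h1 : k * M * A.card < M * M := lt_of_lt_of_le (Nat.mul_lt_mul_of_pos_right hk hApos) hbound
  have h2 : k * A.card < M := by
    by_contra hge
    push Not at hge
    have := Nat.mul_le_mul_left M hge
    nlinarith
  omega

/-- the dilated version on an interval of length `l * ∏ p`. -/
lemma dense_interval_dilate (k : ℕ) (hB : ∀ p ∈ B, p.Prime ∧ 2 < p)
    (hk : k * ∏ p ∈ B, p < ∏ p ∈ B, (p + 1)) (l : ℕ) (hl : 0 < l) (n : ℕ) (A : Finset ℕ)
    (hA : A ⊆ Finset.Ico n (n + l * ∏ p ∈ B, p)) (hcard : l * ∏ p ∈ B, p ≤ k * A.card) :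
    ∃ x ∈ A, ∃ y ∈ A, y < x ∧ ∃ t ∈ R0 B, x - y = l * t := by
  classical
  set M := ∏ p ∈ B, p with hM
  have hMpos : 0 < M := Finset.prod_pos (fun p hp => (hB p hp).1.pos)
  -- a residue class modulo `l` in which `A` is dense
  have hex : ∃ b ∈ Finset.range l, M ≤ k * (A.filter (fun x => x % l = b)).card := by
    by_contra hcon
    push Not at hcon
    have h1 : A.card = ∑ b ∈ Finset.range l, (A.filter (fun x => x % l = b)).card :=
      Finset.card_eq_sum_card_fiberwise (fun x _ => by
        simp only [Finset.coe_range, Set.mem_Iio]; exact Nat.mod_lt _ hl)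
    have h2 : k * A.card < l * M := by
      rw [h1, Finset.mul_sum]
      calc ∑ b ∈ Finset.range l, k * (A.filter (fun x => x % l = b)).card
          < ∑ b ∈ Finset.range l, M := by
            apply Finset.sum_lt_sum_of_nonempty
            · exact ⟨0, Finset.mem_range.2 hl⟩
            · exact hcon
        _ = l * M := by simp
    omega
  obtain ⟨b, hb, hbc⟩ := hex
  rw [Finset.mem_range] at hb
  set Ab := A.filter (fun x => x % l = b) with hAb
  have hdecomp : ∀ x ∈ Ab, x = l * (x / l) + b := by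
    intro x hx
    rw [hAb, Finset.mem_filter] at hx
    have := Nat.div_add_mod x l
    rw [hx.2] at this
    exact this.symm
  have hcard' : (Ab.image (fun x => x / l)).card = Ab.card := by
    apply Finset.card_image_of_injOn
    intro x hx y hy hxy
    simp only at hxy
    rw [hdecomp x hx, hdecomp y hy, hxy]
  obtain ⟨x', hx', y', hy', hlt, hmem⟩ := dense_interval B k hB hk ((n + l - 1 - b) / l)
    (Ab.image (fun x => x / l)) (by
      intro z hz
      rw [Finset.mem_image] at hz
      obtain ⟨x, hx, rfl⟩ := hz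
      have hd := hdecomp x hx
      have hxA : x ∈ A := (Finset.mem_filter.1 hx).1
      have hI := Finset.mem_Ico.1 (hA hxA)
      rw [← hM]
      generalize x / l = z at hd
      subst hd
      rw [Finset.mem_Ico]
      have e1 : (n + l - 1 - b) / l < z + 1 := by
        rw [Nat.div_lt_iff_lt_mul hl]
        nlinarith [hI.1, Nat.sub_le (n + l - 1) b, Nat.sub_add_cancel
          (show b ≤ n + l - 1 by omega), Nat.sub_add_cancel (show 1 ≤ n + l by omega)]
      refine ⟨Nat.lt_succ_iff.1 e1, ?_⟩
      by_contra hge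
      push Not at hge
      have h3 : n + l - 1 - b < l * ((n + l - 1 - b) / l + 1) := by
        exact Nat.lt_mul_div_succ _ hl
      have h7 := Nat.mul_le_mul_left l hge
      rw [Nat.mul_add] at h7
      rw [Nat.mul_add, Nat.mul_one] at h3
      have h8 := hI.2
      have h9 : n + l - 1 - b + b + 1 = n + l := by omega
      generalize l * ((n + l - 1 - b) / l) = w at h3 h7
      omega)
    (by rw [hcard']; exact hbc)
  rw [Finset.mem_image] at hx' hy'
  obtain ⟨x, hx, rfl⟩ := hx'
  obtain ⟨y, hy, rfl⟩ := hy'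
  have hdx := hdecomp x hx
  have hdy := hdecomp y hy
  refine ⟨x, (Finset.mem_filter.1 hx).1, y, (Finset.mem_filter.1 hy).1, ?_, x / l - y / l,
    hmem, ?_⟩
  · rw [hdx, hdy]
    have := Nat.mul_lt_mul_of_pos_left hlt hl
    omega
  · rw [Nat.mul_sub]
    omega

/-- If `x, y` are not divisible by the odd number `s` and `x ≡ y + t` with `t ≡ 0, ±1` modulo `s`,
then the parities of `x % s` and `y % s` differ exactly when `t` is nonzero modulo `s`. -/
lemma parity_step (s x y t : ℕ) (hs : 2 < s) (hx : ¬ s ∣ x) (hy : ¬ s ∣ y)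
    (hxy : (x : ZMod s) = y + t)
    (ht : (t : ZMod s) = 0 ∨ (t : ZMod s) = 1 ∨ (t : ZMod s) = -1) :
    (x % s + y % s) % 2 = if (t : ZMod s) = 0 then 0 else 1 := by
  have hspos : 0 < s := by omega
  have hx1 : x % s ≠ 0 := fun h => hx (Nat.dvd_of_mod_eq_zero h)
  have hy1 : y % s ≠ 0 := fun h => hy (Nat.dvd_of_mod_eq_zero h)
  have hx2 : x % s < s := Nat.mod_lt _ hspos
  have hy2 : y % s < s := Nat.mod_lt _ hspos
  have : Fact (1 < s) := ⟨by omega⟩
  rcases ht with h | h | h
  · rw [if_pos h]
    rw [h, add_zero] at hxy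
    have : x % s = y % s := (ZMod.natCast_eq_natCast_iff' _ _ _).1 hxy
    omega
  · have h0 : ¬ ((t : ZMod s) = 0) := by rw [h]; exact one_ne_zero
    rw [if_neg h0]
    rw [h] at hxy
    have h1 : (x : ZMod s) = ((y % s + 1 : ℕ) : ZMod s) := by
      push_cast
      rw [hxy, ZMod.natCast_mod]
    have h2 : x % s = (y % s + 1) % s := (ZMod.natCast_eq_natCast_iff' _ _ _).1 h1
    rcases Nat.lt_or_ge (y % s + 1) s with h3 | h3
    · rw [Nat.mod_eq_of_lt h3] at h2
      omega
    · have h4 : y % s + 1 = s := by omega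
      rw [h4, Nat.mod_self] at h2
      exact absurd h2 hx1
  · have h0 : ¬ ((t : ZMod s) = 0) := by rw [h]; exact neg_ne_zero.2 one_ne_zero
    rw [if_neg h0]
    rw [h] at hxy
    have h1 : (y : ZMod s) = ((x % s + 1 : ℕ) : ZMod s) := by
      push_cast
      rw [ZMod.natCast_mod, hxy]; ring
    have h2 : y % s = (x % s + 1) % s := (ZMod.natCast_eq_natCast_iff' _ _ _).1 h1
    rcases Nat.lt_or_ge (x % s + 1) s with h3 | h3
    · rw [Nat.mod_eq_of_lt h3] at h2
      omega
    · have h4 : x % s + 1 = s := by omega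
      rw [h4, Nat.mod_self] at h2
      exact absurd h2 hy1

/-- the two-colouring of the integers coprime to `B` -/
def col (x : ℕ) : Fin 2 := ⟨(∑ s ∈ B, x % s) % 2, Nat.mod_lt _ (by norm_num)⟩

lemma col_ne (hB : ∀ p ∈ B, p.Prime ∧ 2 < p) (x y t : ℕ)
    (hx : ∀ s ∈ B, ¬ s ∣ x) (hy : ∀ s ∈ B, ¬ s ∣ y)
    (hxy : ∀ s ∈ B, (x : ZMod s) = y + t)
    (ht : res B t ∈ T (fun p : {p // p ∈ B} => (p : ℕ))) : col B x ≠ col B y := by
  classical
  obtain ⟨ht1, ht2⟩ := ht
  have h1 : ((∑ s ∈ B, x % s) + (∑ s ∈ B, y % s)) % 2 = 1 := by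
    rw [← Finset.sum_add_distrib]
    rw [Finset.sum_nat_mod]
    have h2 : ∀ s ∈ B, (x % s + y % s) % 2 = if (t : ZMod s) = 0 then 0 else 1 := by
      intro s hs
      exact parity_step s x y t (hB s hs).2 (hx s hs) (hy s hs) (hxy s hs) (ht1 ⟨s, hs⟩)
    rw [Finset.sum_congr rfl h2]
    have h3 : (∑ s ∈ B, if (t : ZMod s) = 0 then 0 else 1) =
        (Finset.univ.filter (fun i : {p // p ∈ B} => res B t i ≠ 0)).card := by
      rw [Finset.card_filter, ← Finset.sum_coe_sort B]
      apply Finset.sum_congr rfl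
      intro i _
      by_cases h : (t : ZMod (i : ℕ)) = 0
      · have h' : ¬ (res B t i ≠ 0) := not_not.2 h
        rw [if_pos h, if_neg h']
      · have h' : res B t i ≠ 0 := h
        rw [if_neg h, if_pos h']
    rw [h3]
    exact Nat.odd_iff.1 ht2
  intro hcol
  have h4 : (∑ s ∈ B, x % s) % 2 = (∑ s ∈ B, y % s) % 2 := by
    have := congrArg Fin.val hcol
    simpa [col] using this
  omega

end

/-- **Main result.** -/
theorem result (k m : ℕ) (hm : 0 < m) :
    ∃ (R : Finset ℕ) (L : ℕ), 0 < L ∧ (∀ r ∈ R, 0 < r ∧ m ∣ r) ∧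
      (∀ (n : ℕ) (A : Finset ℕ), A ⊆ Finset.Ico n (n + L) → L ≤ k * A.card →
        ∃ x ∈ A, ∃ y ∈ A, y < x ∧ x - y ∈ R) ∧
      (∀ c : ℕ → Fin k, ∃ x y : ℕ, y < x ∧ c x = c y ∧ x - y ∈ R) ∧
      (∃ c : ℕ → Fin 2, ∀ p q : ℕ, p.Prime → q.Prime → q < p → c p = c q → p - q ∉ R) := by
  classical
  obtain ⟨B, hB, hk⟩ := exists_primes k m hm
  have hB' : ∀ p ∈ B, p.Prime ∧ 2 < p := fun p hp => ⟨(hB p hp).1, (hB p hp).2.1⟩
  set M := ∏ p ∈ B, p with hM
  have hMpos : 0 < M := Finset.prod_pos (fun p hp => (hB p hp).1.pos)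
  have hcop : Nat.Coprime M m := by
    apply Nat.Coprime.prod_left
    intro p hp
    exact (Nat.Prime.coprime_iff_not_dvd (hB p hp).1).2 (hB p hp).2.2
  -- a dilation factor congruent to `1` modulo `M` and to `0` modulo `m`
  obtain ⟨l0, hl1, hl2⟩ := Nat.chineseRemainder hcop 1 0
  -- make it positive
  set a := l0 + M * m with ha
  have ha1 : a ≡ 1 [MOD M] := by
    rw [ha]
    exact (Nat.ModEq.trans (by simp [Nat.ModEq]) hl1)
  have ha2 : m ∣ a := by
    rw [ha]
    exact dvd_add ((Nat.modEq_zero_iff_dvd).1 hl2) (dvd_mul_left _ _)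
  have hapos : 0 < a := by rw [ha]; positivity
  set P := ∏ q ∈ B, ∏ t ∈ R0 B, (q + a * t) with hP
  have hPpos : 0 < P := by
    apply Finset.prod_pos
    intro q hq
    apply Finset.prod_pos
    intro t _
    have := (hB q hq).1.pos
    positivity
  set l := a + M * m * P with hl
  have hlpos : 0 < l := by positivity
  have hlm : m ∣ l := dvd_add ha2 (by
    rw [mul_comm M m, mul_assoc]; exact dvd_mul_right _ _)
  have hlM : l ≡ 1 [MOD M] := by
    rw [hl, mul_assoc]
    exact (Nat.ModEq.trans (by simp [Nat.ModEq]) ha1)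
  have hlgt : M < l := by
    have h1 : M * 1 ≤ M * (m * P) := Nat.mul_le_mul_left _ (Nat.mul_pos hm hPpos)
    rw [hl, mul_assoc]
    omega
  -- interval statement
  have hint : ∀ (n : ℕ) (A : Finset ℕ), A ⊆ Finset.Ico n (n + l * M) → l * M ≤ k * A.card →
        ∃ x ∈ A, ∃ y ∈ A, y < x ∧ x - y ∈ (R0 B).image (fun t => l * t) := by
    intro n A hA hcard
    obtain ⟨x, hx, y, hy, hlt, t, ht, hxy⟩ :=
      dense_interval_dilate B k hB' hk l hlpos n A hA hcard
    exact ⟨x, hx, y, hy, hlt, Finset.mem_image.2 ⟨t, ht, hxy.symm⟩⟩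
  refine ⟨(R0 B).image (fun t => l * t), l * M, by positivity, ?_, hint, ?_, ?_⟩
  · intro r hr
    rw [Finset.mem_image] at hr
    obtain ⟨t, ht, rfl⟩ := hr
    have h2 := ((mem_R0 B).1 ht).2.1
    exact ⟨Nat.mul_pos hlpos h2, hlm.mul_right _⟩
  · intro c
    -- one colour class is dense in the interval
    have hkpos : 0 < k := lt_of_le_of_lt (Nat.zero_le _) (c 0).2
    have hex : ∃ i : Fin k, l * M ≤ k * ((Finset.Ico 0 (0 + l * M)).filter (fun x => c x = i)).card := by
      by_contra hcon
      push Not at hcon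
      have h1 : (Finset.Ico 0 (0 + l * M)).card =
          ∑ i : Fin k, ((Finset.Ico 0 (0 + l * M)).filter (fun x => c x = i)).card :=
        Finset.card_eq_sum_card_fiberwise (fun x _ => by simp)
      have h2 : ∑ i : Fin k, k * ((Finset.Ico 0 (0 + l * M)).filter (fun x => c x = i)).card <
          ∑ i : Fin k, l * M := by
        apply Finset.sum_lt_sum_of_nonempty
        · exact ⟨c 0, Finset.mem_univ _⟩
        · intro i _
          exact hcon i
      rw [← Finset.mul_sum, ← h1] at h2
      simp at h2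
    obtain ⟨i, hi⟩ := hex
    obtain ⟨x, hx, y, hy, hlt, hR⟩ := hint 0 _ (Finset.filter_subset _ _) hi
    rw [Finset.mem_filter] at hx hy
    exact ⟨x, y, hlt, hx.2.trans hy.2.symm, hR⟩
  · refine ⟨col B, ?_⟩
    intro p q hp hq hqp hcol hR
    rw [Finset.mem_image] at hR
    obtain ⟨t, ht, htpq⟩ := hR
    have htpos := ((mem_R0 B).1 ht).2.1
    have hpq : p = q + l * t := by omega
    have hleM : ∀ s ∈ B, s ≤ M := fun s hs =>
      Nat.le_of_dvd hMpos (Finset.dvd_prod_of_mem _ hs)
    -- `q` is not in `B`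
    have hqB : q ∉ B := by
      intro hqB
      have h1 : (q + a * t) ∣ P := (Finset.dvd_prod_of_mem (fun t => q + a * t) ht).trans
        (Finset.dvd_prod_of_mem (fun q => ∏ t ∈ R0 B, (q + a * t)) hqB)
      have h2 : (q + a * t) ∣ p := by
        have : p = (q + a * t) + P * (M * m * t) := by rw [hpq, hl]; ring
        rw [this]
        exact dvd_add (dvd_refl _) (h1.mul_right _)
      rcases (Nat.dvd_prime hp).1 h2 with h3 | h3
      · have := hq.two_le
        omega
      · have h4 : 0 < M * m * P * t := by positivity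
        have h5 : p = q + a * t + M * m * P * t := by rw [hpq, hl]; ring
        omega
    have hpB : p ∉ B := by
      intro hpB
      have h1 := hleM p hpB
      have h2 : l * 1 ≤ l * t := Nat.mul_le_mul_left _ htpos
      omega
    apply col_ne B hB' p q t ?_ ?_ ?_ ((mem_R0 B).1 ht).2.2 hcol
    · intro s hs hd
      have := (Nat.prime_dvd_prime_iff_eq (hB s hs).1 hp).1 hd
      exact hpB (this ▸ hs)
    · intro s hs hd
      have := (Nat.prime_dvd_prime_iff_eq (hB s hs).1 hq).1 hd
      exact hqB (this ▸ hs)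
    · intro s hs
      have h1 : l ≡ 1 [MOD s] := hlM.of_dvd (Finset.dvd_prod_of_mem _ hs)
      have h2 : (l : ZMod s) = 1 := by
        have := (ZMod.natCast_eq_natCast_iff _ _ _).2 h1
        simpa using this
      rw [hpq]
      push_cast
      rw [h2, one_mul]

end Pool.Agent.Results.MP_f6c4b6_nt.NoUniformTransfer
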