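import Pool.Agent.H3.FC.Slow

/-!
One set `R` of natural numbers which contains differences of all dense sets of natural numbers, in
every ideal and with any prescribed uniformity, while the primes up to `N` need only slowly growing
many colours without a difference in `R`.
-/

namespace Pool.Agent.Results.MP_f6c4b6_nt.SlowlyGrowingColours

open Filter

/-- For all functions `Φ, ω` of natural numbers with `ω → ∞` there are a set `R` of natural numbers and a
colouring `c` such that, with `w N` the number of colours of the primes up to `N`: every finite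
colouring of the positive integers has a pair of one colour with difference in `R`, divisible by a given
`q`; for all `q, k` and large `N` every set of at least `N / (k + Φ (w N))` elements of an interval of `N`
integers contains such a pair; no two primes of one colour differ by an element of `R`; and
`w N ≤ max 1 (ω N)`. -/
theorem result (Φ ω : ℕ → ℕ) (hω : Tendsto ω atTop atTop) :
    ∃ (R : Set ℕ) (c : ℕ → ℕ),
      (∀ q k : ℕ, 0 < q → ∀ d : ℕ → Fin k,
        ∃ x y : ℕ, 0 < y ∧ y < x ∧ d x = d y ∧ x - y ∈ R ∧ q ∣ x - y) ∧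
      (∀ q k : ℕ, 0 < q → ∃ N0, ∀ N, N0 ≤ N → ∀ (n : ℕ) (A : Finset ℕ),
        A ⊆ Finset.Ico n (n + N) →
        N ≤ (k + Φ ((c '' {p : ℕ | p.Prime ∧ p ≤ N}).ncard)) * A.card →
        ∃ x ∈ A, ∃ y ∈ A, y < x ∧ x - y ∈ R ∧ q ∣ x - y) ∧
      (∀ p q : ℕ, p.Prime → q.Prime → q < p → c p = c q → p - q ∉ R) ∧
      (∀ N, (c '' {p : ℕ | p.Prime ∧ p ≤ N}).ncard ≤ max 1 (ω N)) :=
  Pool.Agent.H3.FC.Slow.slow Φ ω hω

end Pool.Agent.Results.MP_f6c4b6_nt.SlowlyGrowingColours
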